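import Pool.Agent.AT5.Stmts2
import Pool.Agent.Helper69_AT2.Teb2
import Pool.Agent.Helper3_C2.GDV
import Pool.Agent.Helper57_K9.Gq9
import Pool.Agent.Helper72_AT2.ORT

/-!
# Squad AT5, row TY5: the blocks of `N(Q)/Q` which are not over a conjugate of `(U, f)`
-/

open scoped BigOperators

noncomputable section

namespace Pool.Agent.PP.T5.H31

open Pool.Agent.Helper51_AWC Pool.Agent.Helper79_WRA Pool.Agent.PP Pool.Agent.PP.KF
open Pool.Agent.PP.K9 Pool.Agent.PP.K9.H97 Pool.Agent.PP.H75 Pool.Agent.PP.T3 Pool.Agent.PP.T2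

attribute [local instance] Ideal.Quotient.field

set_option linter.unusedSectionVars false

/-! ### 1. Nilpotent elements of the group ring -/

section nil

variable {F H : Type} [Field F] [Group H] [Finite H]

theorem iter_zero_iff (a b : H → F) (n : ℕ) : (mulF a)^[n] b = 0 ↔ ma a ^ n * ma b = 0 := by
  rw [← ma_iterate, ← ma_zero (F := F) (H := H)]
  exact ma_injective.eq_iff.symm

/-- the idempotent `f₁` is central -/
theorem comm_idem {f₁ : H → F} (h : IsCl f₁) (x : MonoidAlgebra F H) : Commute x (ma f₁) :=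
  (Subalgebra.mem_center_iff.1 ((isCl_iff f₁).1 h) x)

theorem ma_pow_idem {f₁ : H → F} (h : IsIdem f₁) (n : ℕ) : ma f₁ ^ (n + 1) = ma f₁ :=
  IsIdempotentElem.pow_succ_eq n ((isIdem_iff f₁).1 h).2

theorem nil_iff {f₁ : H → F} (h : IsIdem f₁) (a : H → F) :
    (∃ n : ℕ, (mulF a)^[n] f₁ = 0) ↔ IsNilpotent (ma a * ma f₁) := by
  have hc := comm_idem h.1 (ma a)
  constructor
  · rintro ⟨n, hn⟩
    rw [iter_zero_iff] at hn
    refine ⟨n + 1, ?_⟩
    rw [hc.mul_pow, ma_pow_idem h, pow_succ', mul_assoc, hn, mul_zero]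
  · rintro ⟨n, hn⟩
    refine ⟨n, ?_⟩
    rw [iter_zero_iff]
    rw [hc.mul_pow] at hn
    have h1 := congrArg (fun x => x * ma f₁) hn
    simp only [zero_mul] at h1
    rw [mul_assoc, ← pow_succ, ma_pow_idem h] at h1
    exact h1

theorem nil_sum {f₁ : H → F} (h : IsIdem f₁) {ι : Type} (s : Finset ι) (w : ι → H → F)
    (hc : ∀ i ∈ s, ∀ j ∈ s, mulF (w i) (w j) = mulF (w j) (w i))
    (hn : ∀ i ∈ s, ∃ n : ℕ, (mulF (w i))^[n] f₁ = 0) :
    ∃ n : ℕ, (mulF (∑ i ∈ s, w i))^[n] f₁ = 0 := by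
  rw [nil_iff h, ma_sum, Finset.sum_mul]
  apply Commute.isNilpotent_sum
  · intro i hi
    rw [← nil_iff h]
    exact hn i hi
  · intro i j hi hj
    have h1 : Commute (ma (w i)) (ma (w j)) := by
      have h2 := congrArg ma (hc i hi j hj)
      rwa [ma_mul, ma_mul] at h2
    have c1 := comm_idem h.1 (ma (w i))
    have c2 := comm_idem h.1 (ma (w j))
    exact (h1.mul_right c1).mul_left (c2.symm.mul_right (Commute.refl _))

/-- the second summand is not nilpotent in `f₁` -/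
theorem inv_of_add {f₁ : H → F} (h : IsBlk f₁) {z z₁ z₂ : H → F} (h1 : IsCl z₁) (h2 : IsCl z₂)
    (hz : z = z₁ + z₂) (hinv : Inv z f₁) (hn : ∃ n : ℕ, (mulF z₁)^[n] f₁ = 0) : Inv z₂ f₁ := by
  rcases H50.blk_dich h h2 with h3 | h3
  · exfalso
    obtain ⟨c, hc, hcz⟩ := hinv
    rw [nil_iff h.1] at h3 hn
    have c1 := comm_idem h1 (ma z₂)
    have c2 := comm_idem h.1.1 (ma z₁)
    have c3 := comm_idem h.1.1 (ma z₂)
    have h4 : IsNilpotent (ma z₁ * ma f₁ + ma z₂ * ma f₁) := by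
      apply Commute.isNilpotent_add _ hn h3
      exact (c1.symm.mul_right c2).mul_left (c3.symm.mul_right (Commute.refl _))
    rw [← add_mul, ← ma_add, ← hz] at h4
    obtain ⟨n, hn'⟩ := h4
    have h5 : ma c * (ma z * ma f₁) = ma f₁ := by
      have h6 := congrArg ma hcz
      rwa [ma_mul, ma_mul, mul_assoc] at h6
    have h7 : Commute (ma c) (ma z * ma f₁) := (comm_idem hc (ma z * ma f₁)).symm
    have h8 : ma f₁ ^ n = 0 := by
      rw [← h5, h7.mul_pow, hn', mul_zero]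
    have h9 : ma f₁ = 0 := by
      rw [← ma_pow_idem h.1 n, pow_succ, h8, zero_mul]
    exact h.2.1 (ma_injective (h9.trans ma_zero.symm))
  · exact h3

end nil

/-! ### 2. The other blocks of `X` -/

section blocks

variable {F G : Type} [Field F] [Group G] [Finite G]

theorem pow_mul_zero_of_le {K b : G → F} {n N : ℕ} (h : (mulF K)^[n] b = 0) (hN : n ≤ N) :
    ma K ^ N * ma b = 0 := by
  rw [iter_zero_iff] at h
  obtain ⟨k, rfl⟩ := Nat.exists_eq_add_of_le' hN
  rw [pow_add, mul_assoc, h, mul_zero]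

theorem nil_rest {X : Subgroup G} {E f K : G → F} (hE : Ix X E) (hf : Bx X f)
    (hEf : mulF E f = f)
    (hn : ∀ f', Bx X f' → mulF E f' = f' → f' ≠ f → ∃ n : ℕ, (mulF K)^[n] f' = 0) :
    ∃ n : ℕ, (mulF K)^[n] (E - f) = 0 := by
  classical
  have hfin := T2.H69.bx_finite (F := F) X
  obtain ⟨m, hm⟩ : ∃ m : (G → F) → ℕ, ∀ f', Bx X f' → mulF E f' = f' → f' ≠ f →
      (mulF K)^[m f'] f' = 0 := by
    have h1 : ∀ f' : G → F, ∃ n : ℕ, Bx X f' → mulF E f' = f' → f' ≠ f →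
        (mulF K)^[n] f' = 0 := by
      intro f'
      by_cases h2 : Bx X f' ∧ mulF E f' = f' ∧ f' ≠ f
      · obtain ⟨n, h3⟩ := hn f' h2.1 h2.2.1 h2.2.2
        exact ⟨n, fun _ _ _ => h3⟩
      · exact ⟨0, fun a b c => absurd ⟨a, b, c⟩ h2⟩
    exact ⟨fun f' => (h1 f').choose, fun f' => (h1 f').choose_spec⟩
  obtain ⟨N, hN⟩ : ∃ N : ℕ, ∀ f', Bx X f' → m f' ≤ N := by
    refine ⟨hfin.toFinset.sup m, fun f' h' => ?_⟩
    exact Finset.le_sup (hfin.mem_toFinset.2 h')
  refine ⟨N, ?_⟩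
  rw [iter_zero_iff]
  by_contra hcon
  have hEs : ∀ x, x ∉ X → (E - f) x = 0 := by
    intro x hx
    rw [Pi.sub_apply, hE.supp x hx, hf.supp x hx, sub_zero]
  have hres : (fun t : X => E t) - (fun t : X => f t) = fun t : X => (E - f) t := rfl
  have hEf' : mulF (fun t : X => E t) (fun t : X => f t) = fun t : X => f t := by
    rw [← mulF_res X f hE.supp, hEf]
  have hid : IsIdem (fun t : X => (E - f) t) := by
    rw [← hres]
    exact (H46.isIdem_sub hE.idem hf.blk.1 hEf').1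
  have hext_add : ∀ a b : X → F, H75.ext0 X (a + b) = H75.ext0 X a + H75.ext0 X b := by
    intro a b
    apply eq_of_res (N := X) (ext0_supp X _)
    · intro x hx
      rw [Pi.add_apply, ext0_supp X a x hx, ext0_supp X b x hx, add_zero]
    · funext t
      rw [Pi.add_apply, ext0_apply, ext0_apply, ext0_apply, Pi.add_apply]
  obtain ⟨b₀, hb₀, hEb, hL⟩ := K9.H24.exists_blk
    (L := fun a : X → F => ma K ^ N * ma (H75.ext0 X a)) (by
      have h1 : H75.ext0 X (0 : X → F) = 0 := by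
        apply eq_of_res (N := X) (ext0_supp X _) (fun _ _ => rfl)
        funext t
        rw [ext0_apply]
        rfl
      show ma K ^ N * ma (H75.ext0 X (0 : X → F)) = 0
      rw [h1, ma_zero, mul_zero])
    (by
      intro a b
      show ma K ^ N * ma (H75.ext0 X (a + b)) = _
      rw [hext_add, ma_add, mul_add]) hid (by
      show ma K ^ N * ma (H75.ext0 X (fun t : X => (E - f) t)) ≠ 0
      have h1 : H75.ext0 X (fun t : X => (E - f) t) = E - f := by
        apply eq_of_res (N := X) (ext0_supp X _) hEs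
        funext t
        rw [ext0_apply]
      rw [h1]
      exact hcon)
  apply hL
  show ma K ^ N * ma (H75.ext0 X b₀) = 0
  have hbB : Bx X (H75.ext0 X b₀) := by
    refine ⟨ext0_supp X b₀, ?_⟩
    have h1 : (fun t : X => H75.ext0 X b₀ t) = b₀ := funext (ext0_apply X b₀)
    rw [h1]
    exact hb₀
  have hEfb : mulF (E - f) (H75.ext0 X b₀) = H75.ext0 X b₀ := by
    apply eq_of_res (mulF_supp X hEs hbB.supp) hbB.supp
    rw [mulF_res X _ hEs]
    have h1 : (fun t : X => H75.ext0 X b₀ t) = b₀ := funext (ext0_apply X b₀)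
    rw [h1, hEb]
  have hE1 : mulF E (E - f) = E - f := by
    apply ma_injective
    rw [ma_mul, ma_sub, mul_sub, ← ma_mul, ← ma_mul, hE.mul, hEf]
  have hEb' : mulF E (H75.ext0 X b₀) = H75.ext0 X b₀ := by
    conv_lhs => rw [← hEfb]
    rw [← mulF_assoc, hE1, hEfb]
  have hne : H75.ext0 X b₀ ≠ f := by
    intro h
    rw [h] at hEfb
    apply hf.ne
    rw [← hEfb]
    apply ma_injective
    rw [ma_mul, ma_sub, sub_mul, ← ma_mul, ← ma_mul, hEf, hf.mul, sub_self, ma_zero]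
  exact pow_mul_zero_of_le (hm _ hbB hEb' hne) (hN _ hbB)

end blocks

/-! ### 3. The image of `br_Q` in `N(Q)/Q` -/

section op

variable {F G A : Type} [Field F] [Group G] [Finite G] [Group A] [Finite A]
variable {ℓ : ℕ} {Q : Subgroup G} (π : Subgroup.normalizer (Q : Set G) →* A)

/-- the image of `br_Q(b)` -/
def T (b : G → F) : A → F := push π (fun t : Subgroup.normalizer (Q : Set G) => br Q b t)

theorem br_supp (b : G → F) : ∀ x, x ∉ Subgroup.normalizer (Q : Set G) → br Q b x = 0 :=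
  fun _ hx => H66.br_of_not_mem (fun h => hx (Subgroup.centralizer_le_normalizer _ h))

theorem T_mul (hF : GoodF ℓ F) (hQ : IsPGroup ℓ Q) {b c : G → F} (hb : H66.Inv Q b)
    (hc : H66.Inv Q c) : T π (mulF b c) = mulF (T π b) (T π c) := by
  unfold T
  rw [← push_mulF, ← mulF_res _ (br Q c) (br_supp b), H66.br_mulF hF hQ hb hc]

theorem inv_mul' {b c : G → F} (hb : H66.Inv Q b) (hc : H66.Inv Q c) : H66.Inv Q (mulF b c) := by
  intro x hx
  rw [← cj_eq_iff, cj_mulF, (cj_eq_iff x b).2 (hb x hx), (cj_eq_iff x c).2 (hc x hx)]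

theorem inv_iter {b c : G → F} (hb : H66.Inv Q b) (hc : H66.Inv Q c) (n : ℕ) :
    H66.Inv Q ((mulF b)^[n] c) := by
  induction n with
  | zero => exact hc
  | succ n ih =>
    rw [Function.iterate_succ_apply']
    exact inv_mul' hb ih

theorem T_iter (hF : GoodF ℓ F) (hQ : IsPGroup ℓ Q) {b c : G → F} (hb : H66.Inv Q b)
    (hc : H66.Inv Q c) (n : ℕ) : T π ((mulF b)^[n] c) = (mulF (T π b))^[n] (T π c) := by
  induction n with
  | zero => rfl
  | succ n ih =>
    rw [Function.iterate_succ_apply', Function.iterate_succ_apply',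
      T_mul π hF hQ hb (inv_iter hb hc n), ih]

theorem T_add (b c : G → F) : T π (b + c) = T π b + T π c := by
  unfold T
  rw [← T3.H43.push_add]
  congr 1
  funext t
  by_cases ht : (t : G) ∈ Subgroup.centralizer (Q : Set G)
  · rw [Pi.add_apply, H66.br_of_mem ht, H66.br_of_mem ht, H66.br_of_mem ht]
    rfl
  · rw [Pi.add_apply, H66.br_of_not_mem ht, H66.br_of_not_mem ht, H66.br_of_not_mem ht, add_zero]

theorem T_zero : T π (0 : G → F) = 0 := by
  have h := T_add π (0 : G → F) 0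
  rw [add_zero] at h
  exact left_eq_add.1 h

theorem T_sub (b c : G → F) : T π (b - c) = T π b - T π c := by
  have h := T_add π (b - c) c
  rw [sub_add_cancel] at h
  rw [h, add_sub_cancel_right]

theorem T_sum {ι : Type} (s : Finset ι) (b : ι → G → F) :
    T π (∑ i ∈ s, b i) = ∑ i ∈ s, T π (b i) := by
  classical
  induction s using Finset.induction_on with
  | empty => rw [Finset.sum_empty, Finset.sum_empty]; exact T_zero π
  | insert i s hi ih => rw [Finset.sum_insert hi, Finset.sum_insert hi, T_add, ih]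

theorem T_br {U : Subgroup G} (h : U ≤ Q) (b : G → F) : T π (br U b) = T π b := by
  unfold T
  rw [C2.H3.br_br h]

theorem T_cj (n : Subgroup.normalizer (Q : Set G)) (b : G → F) :
    T π (cj (n : G) b) = cj (π n) (T π b) := by
  unfold T
  rw [← T3.H43.push_cj, ← T3.H79.cj_br n.2]
  rfl

theorem T_ne {b : G → F} {x : A} (h : T π b x ≠ 0) :
    ∃ n : Subgroup.normalizer (Q : Set G), π n = x ∧
      (n : G) ∈ Subgroup.centralizer (Q : Set G) ∧ b n ≠ 0 := by
  classical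
  have := Fintype.ofFinite (Subgroup.normalizer (Q : Set G))
  unfold T at h
  rw [push_eq] at h
  obtain ⟨n, -, hn⟩ := Finset.exists_ne_zero_of_sum_ne_zero h
  have h1 : π n = x := by
    by_contra h2
    exact hn (if_neg h2)
  rw [if_pos h1] at hn
  have h2 : (n : G) ∈ Subgroup.centralizer (Q : Set G) := by
    by_contra h3
    exact hn (H66.br_of_not_mem h3)
  rw [H66.br_of_mem h2] at hn
  exact ⟨n, h1, h2, hn⟩

theorem T_comm {b c : G → F} (hc : ∀ x ∈ Subgroup.centralizer (Q : Set G), cj x c = c) :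
    mulF (T π b) (T π c) = mulF (T π c) (T π b) := by
  have h1 : mulF (br Q b) (br Q c) = mulF (br Q c) (br Q b) := by
    apply mulF_comm_of (K := Subgroup.centralizer (Q : Set G))
    · intro x hx
      exact H66.br_of_not_mem hx
    · intro k hk
      rw [T3.H79.cj_br (Subgroup.centralizer_le_normalizer _ hk), hc k hk]
  unfold T
  rw [← push_mulF, ← push_mulF, ← mulF_res _ (br Q c) (br_supp b),
    ← mulF_res _ (br Q b) (br_supp c), h1]

theorem T_isCl (hπ : Function.Surjective π) {b : G → F} (hb : IsCl b) : IsCl (T π b) := by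
  intro x y
  obtain ⟨n, rfl⟩ := hπ y
  have h1 : cj (π n) (T π b) = T π b := by
    rw [← T_cj, cj_isCl _ hb]
  exact (cj_eq_iff _ _).1 h1 x

/-- the sum over the conjugates of `U` between which and their centralisers `Q` is -/
theorem sum_isCl (hπ : Function.Surjective π) {U : Subgroup G} {K : G → F}
    (hK : ∀ x ∈ Subgroup.normalizer (U : Set G), cj x K = K) :
    IsCl (∑ q ∈ T2.H69.II U Q, T π (cj q.out K)) := by
  have hcos : ∀ g k : G, g⁻¹ * k ∈ Subgroup.normalizer (U : Set G) → cj g K = cj k K := by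
    intro g k H
    have e : k = g * (g⁻¹ * k) := by group
    rw [e, ← cj_cj, hK _ H]
  have key : ∀ m : Subgroup.normalizer (Q : Set G),
      cj (π m) (∑ k ∈ T2.H69.II U Q, T π (cj k.out K)) = ∑ k ∈ T2.H69.II U Q, T π (cj k.out K) := by
    intro m
    have h2 : cj (π m) (∑ k ∈ T2.H69.II U Q, T π (cj k.out K)) =
        ∑ k ∈ T2.H69.II U Q, cj (π m) (T π (cj k.out K)) := by
      funext z
      rw [Finset.sum_apply]
      show (∑ k ∈ T2.H69.II U Q, T π (cj k.out K)) _ = _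
      rw [Finset.sum_apply]
      rfl
    rw [h2]
    have h4 : ∀ (n : G) (k : G ⧸ Subgroup.normalizer (U : Set G)),
        (n * k.out)⁻¹ * (n • k).out ∈ Subgroup.normalizer (U : Set G) := by
      intro n k
      rw [← QuotientGroup.eq, QuotientGroup.out_eq']
      have h5 : ((n * k.out : G) : G ⧸ Subgroup.normalizer (U : Set G)) =
          n • ((k.out : G) : G ⧸ Subgroup.normalizer (U : Set G)) := rfl
      rw [h5, QuotientGroup.out_eq']
    refine Finset.sum_bij (fun k _ => (m : G) • k) ?_ ?_ ?_ ?_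
    · intro k hk
      rw [T2.H69.mem_II] at hk ⊢
      exact (T2.H69.bt_coset (h4 m k)).1 ((T2.H69.bt_mul m.2).2 hk)
    · intro a _ b _ hab
      exact smul_left_cancel (m : G) hab
    · intro k hk
      refine ⟨(m : G)⁻¹ • k, ?_, smul_inv_smul _ _⟩
      rw [T2.H69.mem_II] at hk ⊢
      exact (T2.H69.bt_coset (h4 (m : G)⁻¹ k)).1 ((T2.H69.bt_mul (inv_mem m.2)).2 hk)
    · intro k hk
      rw [← T_cj, cj_cj, hcos _ _ (h4 m k)]
  intro x y
  obtain ⟨n, rfl⟩ := hπ y
  exact (cj_eq_iff _ _).1 (key n) x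

theorem cj_iter (g : G) (a b : G → F) (n : ℕ) :
    cj g ((mulF a)^[n] b) = (mulF (cj g a))^[n] (cj g b) := by
  induction n with
  | zero => rfl
  | succ n ih => rw [Function.iterate_succ_apply', Function.iterate_succ_apply', cj_mulF, ih]

/-- (1) of the docstring for one conjugate -/
theorem nil_w (hF : GoodF ℓ F) (hQ : IsPGroup ℓ Q) {U : Subgroup G} {e f K : G → F} {g : G}
    (hg : Bt U Q g) (he : IsCl e) (hf : Ix (Subgroup.normalizer (U : Set G)) f)
    (hK : ∀ x ∈ Subgroup.normalizer (U : Set G), cj x K = K) {n : ℕ}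
    (hn : (mulF K)^[n] (br U e - f) = 0) {f₁ : A → F} (h1 : mulF (T π e) f₁ = f₁)
    (h2 : mulF (T π (cj g f)) f₁ = 0) : (mulF (T π (cj g K)))^[n] f₁ = 0 := by
  have hinvK : ∀ b : G → F, (∀ x ∈ Subgroup.normalizer (U : Set G), cj x b = b) →
      H66.Inv Q (cj g b) := by
    intro b hb x hx
    rw [← cj_eq_iff]
    have h3 : g⁻¹ * x * g ∈ Subgroup.normalizer (U : Set G) :=
      (T2.H69.mem_conjX g x).1 (T2.H69.Q_le hg hx)
    have e1 : x * g = g * (g⁻¹ * x * g) := by group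
    rw [cj_cj, e1, ← cj_cj, hb _ h3]
  have hbr : ∀ x ∈ Subgroup.normalizer (U : Set G), cj x (br U e) = br U e := by
    intro x hx
    rw [T3.H79.cj_br hx, cj_isCl x he]
  have hd : ∀ x ∈ Subgroup.normalizer (U : Set G), cj x (br U e - f) = br U e - f := by
    intro x hx
    have h3 : cj x (br U e - f) = cj x (br U e) - cj x f := rfl
    rw [h3, hbr x hx, hf.inv hx]
  have h4 := congrArg (fun b => T π (cj g b)) hn
  rw [cj_iter, T_iter π hF hQ (hinvK K hK) (hinvK _ hd), cj_zero, T_zero] at h4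
  have h5 : cj g (br U e - f) = br (conjS g U) e - cj g f := by
    have h6 : cj g (br U e - f) = cj g (br U e) - cj g f := rfl
    rw [h6, ← T2.H72.br_cj, cj_isCl g he]
  rw [h5, T_sub, T_br π hg.1] at h4
  rw [iter_zero_iff] at h4 ⊢
  have h7 := congrArg (fun x => x * ma f₁) h4
  simp only [zero_mul] at h7
  rw [ma_sub, mul_assoc, sub_mul, ← ma_mul, ← ma_mul, h1, h2, ma_zero, sub_zero] at h7
  exact h7

end op

theorem cj_clsum {F G : Type} [Field F] [Group G] {X : Subgroup G} {w x : G} (hx : x ∈ X) :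
    cj x (clsum F X w) = clsum F X w := by
  funext t
  unfold cj clsum
  have h : (∃ q ∈ X, x⁻¹ * t * x = q * w * q⁻¹) ↔ ∃ q ∈ X, t = q * w * q⁻¹ := by
    constructor
    · rintro ⟨q, hq, h⟩
      refine ⟨x * q, mul_mem hx hq, ?_⟩
      calc t = x * (x⁻¹ * t * x) * x⁻¹ := by group
        _ = x * q * w * (x * q)⁻¹ := by rw [h]; group
    · rintro ⟨q, hq, rfl⟩
      exact ⟨x⁻¹ * q, mul_mem (inv_mem hx) hq, by group⟩
  by_cases h1 : ∃ q ∈ X, t = q * w * q⁻¹
  · rw [if_pos (h.2 h1), if_pos h1]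
  · rw [if_neg (fun h2 => h1 (h.1 h2)), if_neg h1]

/-- TY5 -/
theorem ty5 (omf : OmfStmt) (ksp : KspStmt) (zpt : ZptStmt) (qtp : QtpStmt) (cyq : CyqStmt) :
    Ty5Stmt := by
  intro ℓ _ M _ hM G _ _ a p k e V u y hU hcy f hf Q hQ A _ _ π hπ hker f₁ hf₁ hff hno
  classical
  have hF : GoodF ℓ (FF M) := H50.fld ℓ Fact.out M hM
  have huy : u * y = y * u := Subgroup.mem_centralizer_iff.1 hU.yc u hU.mem
  obtain ⟨hK1, hK2⟩ := ksp ℓ (FF M) G a u y hU.pos hU.ord huy hU.reg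
  obtain ⟨hUp, -⟩ := omf ℓ G a u hU.pos hU.ord
  have hfB := hf.blk
  have hfund := hf.und
  have hfnil := hf.nil
  clear hf
  obtain ⟨U, hUdef⟩ : ∃ U, U = Om ℓ a u := ⟨_, rfl⟩
  rw [← hUdef] at hK1 hK2 hUp hfB hfund hfnil hno
  obtain ⟨K, hKdef⟩ : ∃ K : G → FF M,
    K = clsum (FF M) (Subgroup.normalizer (U : Set G)) (u * y) := ⟨_, rfl⟩
  rw [← hKdef] at hK1 hK2 hfnil
  have hE : Ix (Subgroup.normalizer (U : Set G)) (br U e) :=
    ⟨fun x hx => H66.br_of_not_mem (fun h => hx (Subgroup.centralizer_le_normalizer _ h)),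
      (H20.brm ℓ (FF M) hF G U (Subgroup.normalizer (U : Set G)) hUp
        (Subgroup.centralizer_le_normalizer _) le_rfl).2.2 e hU.blk.1⟩
  obtain ⟨n, hn⟩ := nil_rest hE hfB hfund hfnil
  have hKinv : ∀ x ∈ Subgroup.normalizer (U : Set G), cj x K = K := by
    intro x hx
    rw [hKdef]
    exact cj_clsum hx
  have hff' : mulF (T π e) f₁ = f₁ := hff
  obtain ⟨z, hz⟩ : ∃ z : A → FF M, z = T π (clsum (FF M) (⊤ : Subgroup G) (u * y)) := ⟨_, rfl⟩
  have hzcl : IsCl z := by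
    rw [hz]
    exact T_isCl π hπ (H50.isCl_clsum _)
  have hzinv : Inv z f₁ := by
    obtain ⟨c, hc, hce⟩ := hU.inv
    refine ⟨T π c, T_isCl π hπ hc, ?_⟩
    have h1 := congrArg (T π) hce
    have hi : ∀ b : G → FF M, IsCl b → H66.Inv Q b := fun b hb => H66.IsCl.inv hb Q
    rw [T_mul π hF hQ (hi _ (H50.isCl_mulF hc (H50.isCl_clsum _))) (hi _ hU.blk.1.1),
      T_mul π hF hQ (hi _ hc) (hi _ (H50.isCl_clsum _)), ← hz] at h1
    calc mulF (mulF (T π c) z) f₁ = mulF (mulF (T π c) z) (mulF (T π e) f₁) := by rw [hff']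
      _ = mulF (mulF (mulF (T π c) z) (T π e)) f₁ := (mulF_assoc _ _ _).symm
      _ = mulF (T π e) f₁ := by rw [h1]
      _ = f₁ := hff'
  have hft := Fintype.ofFinite (G ⧸ Subgroup.normalizer (U : Set G))
  have hzsum : z = ∑ q : G ⧸ Subgroup.normalizer (U : Set G), T π (cj q.out K) := by
    rw [hz, ← T_sum]
    congr 1
    funext t
    rw [Finset.sum_apply, ← hK1 t, finsum_eq_sum_of_fintype]
  obtain ⟨z₁, hz1⟩ : ∃ z₁ : A → FF M, z₁ = ∑ q ∈ T2.H69.II U Q, T π (cj q.out K) := ⟨_, rfl⟩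
  have hz1cl : IsCl z₁ := by
    rw [hz1]
    exact sum_isCl π hπ hKinv
  obtain ⟨z₂, hz2⟩ : ∃ z₂, z₂ = z - z₁ := ⟨_, rfl⟩
  have hz2cl : IsCl z₂ := by
    rw [hz2]
    exact (cfs (FF M) A).sub_mem hzcl hz1cl
  have hzz : z = z₁ + z₂ := by rw [hz2, add_sub_cancel]
  have hnil1 : ∃ n : ℕ, (mulF z₁)^[n] f₁ = 0 := by
    rw [hz1]
    apply nil_sum hf₁.1
    · intro i hi j hj
      apply T_comm
      intro x hx
      have h3 := (T2.H69.mem_conjX j.out x).1 (T2.H69.cent_le (T2.H69.mem_II.1 hj) hx)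
      have e1 : x * j.out = j.out * (j.out⁻¹ * x * j.out) := by group
      rw [cj_cj, e1, ← cj_cj, hKinv _ h3]
    · intro i hi
      have hb := T2.H69.mem_II.1 hi
      exact ⟨n, nil_w π hF hQ hb hU.blk.1.1 hfB.ix hKinv hn hff' (hno i.out hb)⟩
  have hinv2 : Inv z₂ f₁ := inv_of_add hf₁ hz1cl hz2cl hzz hzinv hnil1
  obtain ⟨V', hV'⟩ := K9.H57.exists_tp (ℓ := ℓ) hf₁.2.1
  obtain ⟨x, hxC, hzx, hxV⟩ := zpt ℓ M hM A f₁ hf₁ V' hV' z₂ hz2cl hinv2
  have h1 : ∃ q, q ∉ T2.H69.II U Q ∧ T π (cj q.out K) x ≠ 0 := by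
    by_contra hcon
    push Not at hcon
    apply hzx
    rw [hz2, Pi.sub_apply, hzsum, hz1, Finset.sum_apply, Finset.sum_apply,
      ← Finset.sum_subset (Finset.subset_univ (T2.H69.II U Q)) (fun q _ hq => hcon q hq),
      sub_self]
  obtain ⟨q, hq, hqx⟩ := h1
  obtain ⟨c, hcx, hcC, hcK⟩ := T_ne π hqx
  obtain ⟨u', hLp, hord, hOm, ⟨m, hm⟩, -⟩ := hK2 q.out c hcK
  have hu'N : u' ∈ Subgroup.normalizer (Q : Set G) := by
    rw [hm]
    exact pow_mem c.2 m
  have hu'C : u' ∈ Subgroup.centralizer (Q : Set G) := by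
    rw [hm]
    exact pow_mem hcC m
  obtain ⟨-, -, -, hOz, -, -, -, hO8⟩ := omf ℓ G a u' hU.pos hord
  have hnot : ¬ conjS q.out U ≤ Q := by
    intro hle
    apply hq
    rw [T2.H69.mem_II]
    refine ⟨hle, ?_⟩
    rw [← hOm]
    intro w hw
    rw [Subgroup.mem_centralizer_iff]
    intro r hr
    have hrC : r ∈ Subgroup.centralizer (Q : Set G) := (Subgroup.zpowers_le.2 hu'C) (hOz hr)
    exact (Subgroup.mem_centralizer_iff.1 hrC w hw).symm
  have hkm : π.ker.map (Subgroup.normalizer (Q : Set G)).subtype = Q := by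
    rw [hker, Subgroup.subgroupOf_map_subtype]
    exact inf_eq_left.2 Subgroup.le_normalizer
  have hordv : orderOf (π ⟨u', hu'N⟩) = ℓ ^ a := by
    apply hO8 A _ π hu'N
    rw [hkm, hOm]
    exact hnot
  have hvx : π ⟨u', hu'N⟩ = x ^ m := by
    rw [← hcx, ← map_pow]
    congr 1
    exact Subtype.ext hm
  have hLv : Lp ℓ x (π ⟨u', hu'N⟩) := by
    obtain ⟨⟨r, hr⟩, hcom, hreg⟩ := hLp
    refine ⟨⟨r, ?_⟩, ?_, ?_⟩
    · rw [← map_pow]
      have h5 : (⟨u', hu'N⟩ : Subgroup.normalizer (Q : Set G)) ^ ℓ ^ r = 1 := Subtype.ext hr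
      rw [h5, map_one]
    · rw [hvx]
      exact (Commute.refl x).pow_left m
    · have h5 : (π ⟨u', hu'N⟩)⁻¹ * x = π ((⟨u', hu'N⟩ : Subgroup.normalizer (Q : Set G))⁻¹ * c) := by
        rw [map_mul, map_inv, hcx]
      rw [h5]
      unfold Reg at hreg ⊢
      refine Nat.Coprime.coprime_dvd_left (orderOf_map_dvd π _) ?_
      have h6 : orderOf ((⟨u', hu'N⟩ : Subgroup.normalizer (Q : Set G))⁻¹ * c) =
          orderOf (u'⁻¹ * (c : G)) := by
        rw [← Subgroup.orderOf_coe]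
        rfl
      rwa [h6]
  have hvV := hxV _ hLv
  obtain ⟨P, g, hQP, hPN, hPV, hV'P⟩ := qtp ℓ M hM G e V hU.blk hU.tp Q hQ A π hπ hker f₁ hf₁ hff
    V' hV'.pg hV'.gd
  refine ⟨V', hV', cyq ℓ G A a p k V P (Subgroup.normalizer (Q : Set G)) g π V' hcy hPV hPN hV'P
    ⟨π ⟨u', hu'N⟩, hvV, ?_, hordv⟩⟩
  intro w hw
  rw [hvx]
  exact Subgroup.mem_centralizer_iff.1 (pow_mem hxC m) w hw

end Pool.Agent.PP.T5.H31
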